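import Pool.Agent.Helper14.LK.St
import Pool.Agent.Helper14.LK.Basic

/-!
Project LK (MP_58b586_gt), module CNV: the maps of a compactly supported Hamiltonian isotopy are
jointly smooth, compactly supported and symplectic.
-/

set_option autoImplicit false

open Pool.Agent.Helper14.LK
open scoped ContDiff Topology
open MeasureTheory Set Filter

namespace Pool.Agent.Helper69.LK

variable {n : ℕ}

/-- standard vectors in the first and the second factor -/
private noncomputable def e1 (i : Fin n) : WW n := (EuclideanSpace.single i 1, 0)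

private noncomputable def e2 (i : Fin n) : WW n := (0, EuclideanSpace.single i 1)

/-- the Hamiltonian vector field, as a function on space-time -/
private noncomputable def XX (U : ℝ × WW n → ℝ) (q : ℝ × WW n) : WW n :=
  ∑ i : Fin n, (fderiv ℝ U q (0, e2 i) • e1 i - fderiv ℝ U q (0, e1 i) • e2 i)

private theorem om_e1 (i : Fin n) (b : WW n) : om (e1 i) b = b.2 i := by
  simp [om, e1, EuclideanSpace.inner_single_left]

private theorem om_e2 (i : Fin n) (b : WW n) : om (e2 i) b = -b.1 i := by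
  simp [om, e2, EuclideanSpace.inner_single_left]

private theorem decomp (b : WW n) : b = ∑ i : Fin n, (b.2 i • e2 i + b.1 i • e1 i) := by
  have h : ∀ x : EE n, x = ∑ i : Fin n, x i • (EuclideanSpace.single i 1 : EE n) := by
    intro x
    ext j
    rw [WithLp.ofLp_sum, Finset.sum_apply]
    simp [EuclideanSpace.single_apply]
  apply Prod.ext
  · rw [Prod.fst_sum]
    conv_lhs => rw [h b.1]
    exact Finset.sum_congr rfl (fun i _ => by simp [e1, e2])
  · rw [Prod.snd_sum]
    conv_lhs => rw [h b.2]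
    exact Finset.sum_congr rfl (fun i _ => by simp [e1, e2])

private theorem om_sum_left {ι : Type*} (s : Finset ι) (f : ι → WW n) (b : WW n) :
    om (∑ i ∈ s, f i) b = ∑ i ∈ s, om (f i) b := by
  classical
  induction s using Finset.induction_on with
  | empty => simp
  | insert i s hi ih => rw [Finset.sum_insert hi, Finset.sum_insert hi, om_add_left, ih]

private theorem om_XX (U : ℝ × WW n → ℝ) (q : ℝ × WW n) (b : WW n) :
    om (XX U q) b = fderiv ℝ U q (0, b) := by
  rw [XX, om_sum_left]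
  have h1 : (0, b) = ∑ i : Fin n, ((b.2 i) • ((0 : ℝ), e2 i) + (b.1 i) • ((0 : ℝ), e1 i)) := by
    apply Prod.ext
    · rw [Prod.fst_sum]; simp
    · rw [Prod.snd_sum]
      conv_lhs => rw [show ((0 : ℝ), b).2 = b from rfl, decomp b]
      exact Finset.sum_congr rfl (fun i _ => by simp)
  conv_rhs => rw [h1, map_sum]
  apply Finset.sum_congr rfl
  intro i _
  rw [om_sub_left, om_smul_left, om_smul_left, om_e1, om_e2, map_add, map_smul, map_smul]
  simp only [smul_eq_mul]
  ring

private theorem XX_smooth {U : ℝ × WW n → ℝ} (hU : ContDiff ℝ ∞ U) : ContDiff ℝ ∞ (XX U) := by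
  have h1 : ContDiff ℝ ∞ (fderiv ℝ U) := hU.fderiv_right (by simp)
  unfold XX
  apply ContDiff.sum
  intro i _
  exact ((h1.clm_apply contDiff_const).smul contDiff_const).sub
    ((h1.clm_apply contDiff_const).smul contDiff_const)

private theorem XX_zero {U : ℝ × WW n → ℝ} {C : Set (WW n)} (hC : IsClosed C)
    (h : ∀ t, ∀ w ∉ C, U (t, w) = 0) {q : ℝ × WW n} (hq : q.2 ∉ C) : XX U q = 0 := by
  have h1 : U =ᶠ[𝓝 q] fun _ => 0 := by
    have h2 : {p : ℝ × WW n | p.2 ∉ C} ∈ 𝓝 q :=
      (hC.isOpen_compl.preimage continuous_snd).mem_nhds hq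
    filter_upwards [h2] with p hp
    exact h p.1 p.2 hp
  have h3 : fderiv ℝ U q = 0 := by
    rw [h1.fderiv_eq]
    exact fderiv_const_apply 0
  unfold XX
  simp [h3]

private theorem slice {F : Type*} [NormedAddCommGroup F] [NormedSpace ℝ F] {f : ℝ × WW n → F}
    (hf : Differentiable ℝ f) (t : ℝ) (w b : WW n) :
    fderiv ℝ (fun w => f (t, w)) w b = fderiv ℝ f (t, w) (0, b) := by
  have h1 : HasFDerivAt (fun w : WW n => (t, w)) (ContinuousLinearMap.inr ℝ ℝ (WW n)) w :=
    hasFDerivAt_prodMk_right t w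
  have h2 : HasFDerivAt (fun w => f (t, w))
      ((fderiv ℝ f (t, w)).comp (ContinuousLinearMap.inr ℝ ℝ (WW n))) w :=
    (hf (t, w)).hasFDerivAt.comp w h1
  rw [h2.fderiv]
  rfl

/-- the cut off field and its flow coincide with the isotopy -/
private theorem local_flow (hFLO : StFLO) {H : ℝ → WW n → ℝ} {φ : ℝ → WW n → WW n}
    (hs : ContDiff ℝ ∞ (Function.uncurry H)) {C : Set (WW n)} (hC : IsCompact C)
    (hH : ∀ t, ∀ w ∉ C, H t w = 0) (h0 : ∀ w, φ 0 w = w)
    (hφ : ∀ t w, HasDerivAt (fun s => φ s w) (XX (Function.uncurry H) (t, φ t w)) t)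
    {T : ℝ} (hT : 0 < T) :
    (∃ Φ : ℝ → WW n → WW n, ContDiff ℝ ∞ (Function.uncurry Φ) ∧
      ∀ t ∈ Ioo (-T) T, ∀ w, φ t w = Φ t w) ∧
    (∀ t ∈ Ioo (-T) T, ∀ w ∉ C, φ t w = w) := by
  set U := Function.uncurry H with hU
  let f : ContDiffBump (0 : ℝ) := ⟨T, 2 * T, hT, by linarith⟩
  set V : ℝ → WW n → WW n := fun t w => f t • XX U (t, w) with hV
  have hVs : ContDiff ℝ ∞ (Function.uncurry V) := by
    have : Function.uncurry V = fun q : ℝ × WW n => f q.1 • XX U q := by
      ext q <;> rfl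
    rw [this]
    exact (f.contDiff.comp contDiff_fst).smul (XX_smooth hs)
  have hsup : HasCompactSupport (Function.uncurry V) := by
    apply HasCompactSupport.intro (K := Metric.closedBall (0 : ℝ) (2 * T) ×ˢ C)
      ((isCompact_closedBall _ _).prod hC)
    rintro ⟨t, w⟩ hq
    rw [Set.mem_prod, not_and_or] at hq
    change f t • XX U (t, w) = 0
    rcases hq with h | h
    · have h1 : f t = 0 := by
        apply f.zero_of_le_dist
        have : 2 * T < dist t 0 := by
          by_contra h2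
          exact h (Metric.mem_closedBall.2 (not_lt.1 h2))
        exact this.le
      rw [h1, zero_smul]
    · rw [XX_zero hC.isClosed (fun t w hw => hH t w hw) (q := (t, w)) h, smul_zero]
  obtain ⟨K, hK⟩ := ContDiff.lipschitzWith_of_hasCompactSupport hsup hVs (by simp)
  have hKt : ∀ t, LipschitzWith K (V t) := by
    intro t
    have h1 : LipschitzWith 1 (fun w : WW n => (t, w)) := by
      apply LipschitzWith.of_dist_le_mul
      intro a b
      simp [Prod.dist_eq]
    have h2 := hK.comp h1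
    rw [mul_one] at h2
    exact h2
  obtain ⟨Φ, Φi, hΦ, -, hΦ0, hΦd, -, -⟩ := hFLO (WW n) V hVs ⟨K, hK⟩
  have hft : ∀ t ∈ Ioo (-T) T, f t = 1 := by
    intro t ht
    apply f.one_of_mem_closedBall
    rw [Metric.mem_closedBall, Real.dist_eq, sub_zero]
    exact (abs_lt.2 ht).le
  have h00 : (0 : ℝ) ∈ Ioo (-T) T := ⟨by linarith, hT⟩
  refine ⟨⟨Φ, hΦ, ?_⟩, ?_⟩
  · intro t ht w
    have h1 := ODE_solution_unique_of_mem_Ioo (v := V) (s := fun _ => univ) (K := K)
      (f := fun s => φ s w) (g := fun s => Φ s w) (a := -T) (b := T) (t₀ := 0)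
      (fun t _ => (hKt t).lipschitzOnWith) h00
      (fun t ht => ⟨by
        have := hφ t w
        simp only [hV]
        rw [hft t ht, one_smul]
        exact this, mem_univ _⟩)
      (fun t ht => ⟨hΦd t w, mem_univ _⟩) (by simp only [h0, hΦ0])
    exact h1 ht
  · intro t ht w hw
    have h1 := ODE_solution_unique_of_mem_Ioo (v := V) (s := fun _ => univ) (K := K)
      (f := fun s => φ s w) (g := fun _ => w) (a := -T) (b := T) (t₀ := 0)
      (fun t _ => (hKt t).lipschitzOnWith) h00
      (fun t ht => ⟨by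
        have := hφ t w
        simp only [hV]
        rw [hft t ht, one_smul]
        exact this, mem_univ _⟩)
      (fun t ht => ⟨by
        simp only [hV]
        rw [XX_zero hC.isClosed (fun t w hw => hH t w hw) (q := (t, w)) hw, smul_zero]
        exact hasDerivAt_const t w, mem_univ _⟩) (by simp only [h0])
    exact h1 ht

private theorem symm2 {F : Type*} [NormedAddCommGroup F] [NormedSpace ℝ F] {f : ℝ × WW n → F}
    (hf : ContDiff ℝ ∞ f) (q a b : ℝ × WW n) :
    fderiv ℝ (fderiv ℝ f) q a b = fderiv ℝ (fderiv ℝ f) q b a := by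
  have h1 : IsSymmSndFDerivAt ℝ f q :=
    hf.contDiffAt.isSymmSndFDerivAt (by
      rw [minSmoothness_of_isRCLikeNormedField]
      exact WithTop.coe_le_coe.2 (le_top : (2 : ℕ∞) ≤ ⊤))
  exact h1 a b

private theorem om_const {U : ℝ × WW n → ℝ} {F : ℝ × WW n → WW n} (hU : ContDiff ℝ ∞ U)
    (hF : ContDiff ℝ ∞ F) (hF1 : ∀ q, fderiv ℝ F q (1, 0) = XX U (q.1, F q))
    (w a b : WW n) (t : ℝ) :
    om (fderiv ℝ F (t, w) (0, a)) (fderiv ℝ F (t, w) (0, b)) =
      om (fderiv ℝ F (0, w) (0, a)) (fderiv ℝ F (0, w) (0, b)) := by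
  have hdF : ContDiff ℝ ∞ (fderiv ℝ F) := hF.fderiv_right (by simp)
  have hddF : Differentiable ℝ (fderiv ℝ F) := hdF.differentiable (by simp)
  have hdU : ContDiff ℝ ∞ (fderiv ℝ U) := hU.fderiv_right (by simp)
  have hddU : Differentiable ℝ (fderiv ℝ U) := hdU.differentiable (by simp)
  have hX := XX_smooth hU
  have hXd : Differentiable ℝ (XX U) := hX.differentiable (by simp)
  have hFd : Differentiable ℝ F := hF.differentiable (by simp)
  -- derivative of `fderiv F (t, w) (0, a)` in time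
  have hA : ∀ (a : WW n) (t : ℝ), HasDerivAt (fun s => fderiv ℝ F (s, w) (0, a))
      (fderiv ℝ (XX U) (t, F (t, w)) (0, fderiv ℝ F (t, w) (0, a))) t := by
    intro a t
    have h1 : HasDerivAt (fun s : ℝ => (s, w)) ((1 : ℝ), (0 : WW n)) t :=
      (hasDerivAt_id t).prodMk (hasDerivAt_const t w)
    have h2 : HasDerivAt (fun s => fderiv ℝ F (s, w)) (fderiv ℝ (fderiv ℝ F) (t, w) (1, 0)) t :=
      (hddF (t, w)).hasFDerivAt.comp_hasDerivAt t h1
    have h3 : HasDerivAt (fun s => fderiv ℝ F (s, w) (0, a))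
        (fderiv ℝ (fderiv ℝ F) (t, w) (1, 0) (0, a)) t := by
      have := h2.clm_apply (hasDerivAt_const t ((0 : ℝ), a))
      simpa using this
    have h4 : fderiv ℝ (fun q => fderiv ℝ F q (1, 0)) (t, w) (0, a) =
        fderiv ℝ (fderiv ℝ F) (t, w) (0, a) (1, 0) := by
      have h5 : HasFDerivAt (fun q => fderiv ℝ F q (1, 0))
          ((fderiv ℝ (fderiv ℝ F) (t, w)).flip ((1 : ℝ), (0 : WW n))) (t, w) := by
        have := (hddF (t, w)).hasFDerivAt.clm_apply (hasFDerivAt_const ((1 : ℝ), (0 : WW n)) (t, w))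
        simpa using this
      rw [h5.fderiv]
      rfl
    have h6 : fderiv ℝ (fun q => XX U (q.1, F q)) (t, w) (0, a) =
        fderiv ℝ (XX U) (t, F (t, w)) (0, fderiv ℝ F (t, w) (0, a)) := by
      have h7 : HasFDerivAt (fun q : ℝ × WW n => (q.1, F q))
          ((ContinuousLinearMap.fst ℝ ℝ (WW n)).prod (fderiv ℝ F (t, w))) (t, w) :=
        hasFDerivAt_fst.prodMk (hFd (t, w)).hasFDerivAt
      have h8 : HasFDerivAt (fun q => XX U (q.1, F q))
          ((fderiv ℝ (XX U) (t, F (t, w))).comp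
            ((ContinuousLinearMap.fst ℝ ℝ (WW n)).prod (fderiv ℝ F (t, w)))) (t, w) :=
        HasFDerivAt.comp (g := XX U) (f := fun q : ℝ × WW n => (q.1, F q)) (t, w)
          (hXd (t, F (t, w))).hasFDerivAt h7
      rw [h8.fderiv]
      rfl
    have h9 : (fun q => fderiv ℝ F q (1, 0)) = fun q => XX U (q.1, F q) := funext hF1
    rw [symm2 hF, ← h4, h9, h6] at h3
    exact h3
  -- the derivative of the field is symmetric for `om`
  have hS : ∀ (q : ℝ × WW n) (c b : WW n), om (fderiv ℝ (XX U) q (0, c)) b =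
      fderiv ℝ (fderiv ℝ U) q (0, c) (0, b) := by
    intro q c b
    have h1 : (fun p => omL n (XX U p) b) = fun p => fderiv ℝ U p (0, b) := by
      funext p
      rw [omL_apply, om_XX]
    have h2 : HasFDerivAt (fun p => omL n (XX U p) b)
        (((omL n).flip b).comp (fderiv ℝ (XX U) q)) q :=
      ((omL n).flip b).hasFDerivAt.comp q (hXd q).hasFDerivAt
    have h3 : HasFDerivAt (fun p => fderiv ℝ U p (0, b))
        ((fderiv ℝ (fderiv ℝ U) q).flip ((0 : ℝ), b)) q := by
      have := (hddU q).hasFDerivAt.clm_apply (hasFDerivAt_const ((0 : ℝ), b) q)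
      simpa using this
    rw [h1] at h2
    have h4 := h2.unique h3
    have h5 := congrArg (fun T => T ((0 : ℝ), c)) h4
    rw [← omL_apply]
    exact h5
  have hder : ∀ t, HasDerivAt (fun s => om (fderiv ℝ F (s, w) (0, a)) (fderiv ℝ F (s, w) (0, b)))
      0 t := by
    intro t
    have h1 : HasDerivAt (fun s => omL n (fderiv ℝ F (s, w) (0, a)))
        (omL n (fderiv ℝ (XX U) (t, F (t, w)) (0, fderiv ℝ F (t, w) (0, a)))) t :=
      (omL n).hasFDerivAt.comp_hasDerivAt t (hA a t)
    have h2 := h1.clm_apply (hA b t)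
    rw [omL_apply, omL_apply, hS, om_antisymm, hS, symm2 hU, add_neg_cancel] at h2
    exact h2
  have hconst := is_const_of_deriv_eq_zero
    (f := fun s => om (fderiv ℝ F (s, w) (0, a)) (fderiv ℝ F (s, w) (0, b)))
    (fun t => (hder t).differentiableAt) (fun t => (hder t).deriv)
  exact hconst t 0

theorem hCNV (hFLO : StFLO) : StCNV := by
  intro n H φ ⟨hs, ⟨C, hC, hH⟩, h0, hφ'⟩
  set U := Function.uncurry H with hU
  have hUd : Differentiable ℝ U := hs.differentiable (by simp)
  have hφ : ∀ t w, HasDerivAt (fun s => φ s w) (XX U (t, φ t w)) t := by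
    intro t w
    obtain ⟨v, hv, hv'⟩ := hφ' t w
    have h1 : v = XX U (t, φ t w) := by
      apply eq_of_om_eq
      intro b
      rw [hv', om_XX]
      exact slice hUd t (φ t w) b
    rw [← h1]
    exact hv
  have hsm : ContDiff ℝ ∞ (Function.uncurry φ) := by
    rw [contDiff_iff_contDiffAt]
    rintro ⟨t, w⟩
    have hT : (0 : ℝ) < |t| + 1 := by positivity
    obtain ⟨⟨Φ, hΦ, hΦ'⟩, -⟩ := local_flow hFLO hs hC hH h0 hφ hT
    have h1 : Function.uncurry φ =ᶠ[𝓝 (t, w)] Function.uncurry Φ := by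
      have h2 : {q : ℝ × WW n | q.1 ∈ Ioo (-(|t| + 1)) (|t| + 1)} ∈ 𝓝 (t, w) := by
        apply (isOpen_Ioo.preimage continuous_fst).mem_nhds
        change t ∈ Ioo (-(|t| + 1)) (|t| + 1)
        exact ⟨by linarith [neg_abs_le t], by linarith [le_abs_self t]⟩
      filter_upwards [h2] with q hq
      exact hΦ' q.1 hq q.2
    exact (hΦ.contDiffAt (x := (t, w))).congr_of_eventuallyEq h1
  have hFd : Differentiable ℝ (Function.uncurry φ) := hsm.differentiable (by simp)
  refine ⟨hsm, ?_, ?_⟩
  · obtain ⟨R, hR⟩ := hC.isBounded.subset_closedBall (0 : WW n)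
    refine ⟨R + 1, ?_⟩
    intro t w hw
    have hT : (0 : ℝ) < |t| + 1 := by positivity
    refine (local_flow hFLO hs hC hH h0 hφ hT).2 t ⟨by linarith [neg_abs_le t],
      by linarith [le_abs_self t]⟩ w ?_
    intro hwC
    have := hR hwC
    rw [Metric.mem_closedBall, dist_zero_right] at this
    linarith
  · intro t w a b
    have hF1 : ∀ q, fderiv ℝ (Function.uncurry φ) q (1, 0) = XX U (q.1, Function.uncurry φ q) := by
      rintro ⟨t, w⟩
      have h1 : HasDerivAt (fun s : ℝ => (s, w)) ((1 : ℝ), (0 : WW n)) t :=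
        (hasDerivAt_id t).prodMk (hasDerivAt_const t w)
      have h2 : HasDerivAt (fun s => Function.uncurry φ (s, w))
          (fderiv ℝ (Function.uncurry φ) (t, w) (1, 0)) t :=
        HasFDerivAt.comp_hasDerivAt (l := Function.uncurry φ) (f := fun s : ℝ => (s, w)) t
          (hFd (t, w)).hasFDerivAt h1
      exact h2.unique (hφ t w)
    have h3 := om_const hs hsm hF1 w a b t
    have h4 : ∀ (t : ℝ) (c : WW n), fderiv ℝ (φ t) w c =
        fderiv ℝ (Function.uncurry φ) (t, w) (0, c) := fun t c => slice hFd t w c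
    have h5 : ∀ c : WW n, fderiv ℝ (φ 0) w c = c := by
      intro c
      have : φ 0 = id := funext h0
      rw [this, fderiv_id]
      rfl
    rw [h4, h4, h3, ← h4, ← h4, h5, h5]

end Pool.Agent.Helper69.LK
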