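import Pool.Agent.Helper14.LK.St
import Pool.Agent.Helper14.LK.Basic

/-!
Project LK (MP_58b586_gt), module NIS: a map which is nearly a similarity on a ball is close to an
affine near-similarity.
-/

set_option autoImplicit false

open Pool.Agent.Helper14.LK
open scoped ContDiff Topology
open MeasureTheory Set Filter

namespace Pool.Agent.Helper69.LK

variable {n : ℕ}

private theorem ip_sum_right {ι : Type*} (s : Finset ι) (a : WW n) (c : ι → ℝ) (w : ι → WW n) :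
    ip a (∑ i ∈ s, c i • w i) = ∑ i ∈ s, c i * ip a (w i) := by
  classical
  induction s using Finset.induction_on with
  | empty => simp [ip]
  | insert i s hi ih =>
    rw [Finset.sum_insert hi, Finset.sum_insert hi, ← ih]
    simp only [ip, Prod.fst_add, Prod.snd_add, Prod.smul_fst, Prod.smul_snd, inner_add_right,
      real_inner_smul_right]
    ring

private theorem ip_sum_left {ι : Type*} (s : Finset ι) (a : WW n) (c : ι → ℝ) (w : ι → WW n) :
    ip (∑ i ∈ s, c i • w i) a = ∑ i ∈ s, c i * ip (w i) a := by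
  rw [ip_comm, ip_sum_right]
  exact Finset.sum_congr rfl (fun i _ => by rw [ip_comm])

private theorem nm_sub_sq (a b : WW n) : nm (a - b) ^ 2 = nm a ^ 2 - 2 * ip a b + nm b ^ 2 := by
  rw [← ip_self_eq, ← ip_self_eq, ← ip_self_eq]
  simp only [ip, Prod.fst_sub, Prod.snd_sub, inner_sub_left, inner_sub_right]
  rw [real_inner_comm b.1 a.1, real_inner_comm b.2 a.2]
  ring

private theorem sq_err {ε ρ R d m k : ℝ} (hε : 0 < ε) (hε1 : ε ≤ 1) (hR : 0 < R) (hρ : 0 < ρ)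
    (hd : 0 ≤ d) (hdk : d ≤ k * R) (hm : 0 ≤ m) (h : |m - ρ * d| ≤ ε * ρ * R) :
    |m ^ 2 - ρ ^ 2 * d ^ 2| ≤ (2 * k + 1) * (ε * ρ ^ 2 * R ^ 2) := by
  have h1 : m ^ 2 - ρ ^ 2 * d ^ 2 = (m - ρ * d) * (m + ρ * d) := by ring
  have h2 : m + ρ * d ≤ (2 * k + 1) * (ρ * R) := by
    have := (abs_le.1 h).2
    have h3 : ε * ρ * R ≤ ρ * R := by
      have : 0 < ρ * R := mul_pos hρ hR
      nlinarith
    nlinarith
  have h3 : 0 ≤ m + ρ * d := by positivity
  rw [h1, abs_mul, abs_of_nonneg h3]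
  calc |m - ρ * d| * (m + ρ * d) ≤ (ε * ρ * R) * ((2 * k + 1) * (ρ * R)) := by
        apply mul_le_mul h h2 h3 (by positivity)
    _ = (2 * k + 1) * (ε * ρ ^ 2 * R ^ 2) := by ring

private theorem inner_sum_coord (u v : EE n) : inner ℝ u v = ∑ i, u i * v i := by
  rw [PiLp.inner_apply]
  exact Finset.sum_congr rfl (fun i _ => by simp [mul_comm])

private theorem abs_coord (u : EE n) (i : Fin n) : |u i| ≤ ‖u‖ := by
  have := PiLp.norm_apply_le u i
  rwa [Real.norm_eq_abs] at this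

private theorem core {ε ρ R : ℝ} {ι : EE n → WW n} {x : EE n} (hε : 0 < ε) (hε1 : ε ≤ 1)
    (hR : 0 < R) (hρ : 0 < ρ)
    (h : ∀ a b : EE n, ‖a - x‖ ≤ R → ‖b - x‖ ≤ R →
      |nm (ι a - ι b) - ρ * ‖a - b‖| ≤ ε * ρ * R) (a : EE n) (ha : ‖a - x‖ ≤ R) (i : Fin n) :
    |ip (ι a - ι x) ((1 / R) • (ι (x + R • EuclideanSpace.single i (1 : ℝ)) - ι x)) -
      ρ ^ 2 * (a - x) i| ≤ 6 * (ε * ρ ^ 2 * R) := by
  set e : EE n := EuclideanSpace.single i (1 : ℝ) with he
  have hne : ‖e‖ = 1 := by simp [he]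
  set b : EE n := x + R • e with hb
  have hbx : b - x = R • e := by simp [hb]
  have hnb : ‖b - x‖ = R := by rw [hbx, norm_smul, hne, Real.norm_of_nonneg hR.le, mul_one]
  have h0 : ‖x - x‖ ≤ R := by rw [sub_self, norm_zero]; exact hR.le
  have e1 := sq_err (k := 1) hε hε1 hR hρ (norm_nonneg _) (by rw [one_mul]; exact ha)
    (nm_nonneg _) (h a x ha h0)
  have e2 := sq_err (k := 1) hε hε1 hR hρ (norm_nonneg _) (by rw [one_mul]; exact hnb.le)
    (nm_nonneg _) (h b x hnb.le h0)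
  have hab : ‖a - b‖ ≤ 2 * R := by
    have : a - b = (a - x) - (b - x) := by abel
    rw [this]
    refine (norm_sub_le _ _).trans ?_
    linarith
  have e3 := sq_err (k := 2) hε hε1 hR hρ (norm_nonneg _) hab (nm_nonneg _) (h a b ha hnb.le)
  have p1 : nm (ι a - ι b) ^ 2 =
      nm (ι a - ι x) ^ 2 - 2 * ip (ι a - ι x) (ι b - ι x) + nm (ι b - ι x) ^ 2 := by
    have : ι a - ι b = (ι a - ι x) - (ι b - ι x) := by abel
    rw [this, nm_sub_sq]
  have p2 : ‖a - b‖ ^ 2 = ‖a - x‖ ^ 2 - 2 * (R * (a - x) i) + ‖b - x‖ ^ 2 := by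
    have h3 : a - b = (a - x) - (b - x) := by abel
    rw [h3, norm_sub_sq_real]
    have h4 : inner ℝ (a - x) (b - x) = R * (a - x) i := by
      rw [hbx, real_inner_smul_right, he]
      congr 1
      rw [EuclideanSpace.inner_single_right]
      simp
    rw [h4]
  have e4 : |ip (ι a - ι x) (ι b - ι x) - ρ ^ 2 * (R * (a - x) i)| ≤
      6 * (ε * ρ ^ 2 * R ^ 2) := by
    rw [p1, p2] at e3
    rw [abs_le] at e1 e2 e3 ⊢
    have hpos : 0 < ε * ρ ^ 2 * R ^ 2 := by positivity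
    constructor <;> nlinarith [e1.1, e1.2, e2.1, e2.2, e3.1, e3.2]
  have e5 : ip (ι a - ι x) ((1 / R) • (ι b - ι x)) = (1 / R) * ip (ι a - ι x) (ι b - ι x) := by
    simp only [ip, Prod.smul_fst, Prod.smul_snd, real_inner_smul_right]
    ring
  rw [e5]
  have e6 : 1 / R * ip (ι a - ι x) (ι b - ι x) - ρ ^ 2 * (a - x) i =
      (1 / R) * (ip (ι a - ι x) (ι b - ι x) - ρ ^ 2 * (R * (a - x) i)) := by
    field_simp
  rw [e6, abs_mul, abs_of_pos (by positivity : (0 : ℝ) < 1 / R)]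
  calc 1 / R * |ip (ι a - ι x) (ι b - ι x) - ρ ^ 2 * (R * (a - x) i)| ≤
      1 / R * (6 * (ε * ρ ^ 2 * R ^ 2)) := by gcongr
    _ = 6 * (ε * ρ ^ 2 * R) := by field_simp

theorem hNIS : StNIS := by
  intro n
  refine ⟨3 + 12 * n + 6 * n ^ 2, by positivity, ?_⟩
  intro ε ι x R ρ hε hε1 hR hρ h
  set w : Fin n → WW n := fun i =>
    (1 / R) • (ι (x + R • EuclideanSpace.single i (1 : ℝ)) - ι x) with hw
  set T : EE n →L[ℝ] WW n := ∑ i, (EuclideanSpace.proj i : EE n →L[ℝ] ℝ).smulRight (w i) with hT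
  have hTu : ∀ u, T u = ∑ i, u i • w i := by
    intro u
    rw [hT, ContinuousLinearMap.sum_apply]
    rfl
  have hq : ∀ a, ‖a - x‖ ≤ R → ∀ i, |ip (ι a - ι x) (w i) - ρ ^ 2 * (a - x) i| ≤
      6 * (ε * ρ ^ 2 * R) := fun a ha i => core hε hε1 hR hρ h a ha i
  have hww : ∀ i j, |ip (w i) (w j) - ρ ^ 2 * (if i = j then 1 else 0)| ≤ 6 * (ε * ρ ^ 2) := by
    intro i j
    have hbx : x + R • EuclideanSpace.single i (1 : ℝ) - x = R • EuclideanSpace.single i (1 : ℝ) := by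
      simp
    have hnb : ‖x + R • EuclideanSpace.single i (1 : ℝ) - x‖ ≤ R := by
      rw [hbx, norm_smul, Real.norm_of_nonneg hR.le]
      simp
    have h1 := hq _ hnb j
    rw [hbx] at h1
    have h2 : (R • EuclideanSpace.single i (1 : ℝ) : EE n) j = R * (if i = j then 1 else 0) := by
      simp [EuclideanSpace.single_apply, eq_comm]
    rw [h2] at h1
    have h3 : ι (x + R • EuclideanSpace.single i (1 : ℝ)) - ι x = R • w i := by
      rw [hw]
      simp only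
      rw [smul_smul, mul_one_div_cancel hR.ne', one_smul]
    rw [h3] at h1
    have h4 : ip (R • w i) (w j) = R * ip (w i) (w j) := by
      simp only [ip, Prod.smul_fst, Prod.smul_snd, real_inner_smul_left]
      ring
    rw [h4] at h1
    have h5 : R * ip (w i) (w j) - ρ ^ 2 * (R * (if i = j then 1 else 0)) =
        R * (ip (w i) (w j) - ρ ^ 2 * (if i = j then 1 else 0)) := by ring
    rw [h5, abs_mul, abs_of_pos hR] at h1
    have h6 : 6 * (ε * ρ ^ 2 * R) = R * (6 * (ε * ρ ^ 2)) := by ring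
    rw [h6] at h1
    exact le_of_mul_le_mul_left h1 hR
  have hTT : ∀ u v, |ip (T u) (T v) - ρ ^ 2 * inner ℝ u v| ≤
      6 * n ^ 2 * (ε * ρ ^ 2) * ‖u‖ * ‖v‖ := by
    intro u v
    have h1 : ip (T u) (T v) - ρ ^ 2 * inner ℝ u v =
        ∑ i, ∑ j, u i * v j * (ip (w i) (w j) - ρ ^ 2 * (if i = j then 1 else 0)) := by
      rw [hTu, hTu, ip_sum_left, inner_sum_coord, Finset.mul_sum, ← Finset.sum_sub_distrib]
      apply Finset.sum_congr rfl
      intro i _
      rw [ip_sum_right, Finset.mul_sum]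
      have h2 : ∀ j, u i * v j * (ip (w i) (w j) - ρ ^ 2 * (if i = j then 1 else 0)) =
          u i * (v j * ip (w i) (w j)) - (if i = j then ρ ^ 2 * (u i * v j) else 0) := by
        intro j
        split_ifs <;> ring
      rw [Finset.sum_congr rfl (fun j _ => h2 j), Finset.sum_sub_distrib, Finset.sum_ite_eq,
        if_pos (Finset.mem_univ i)]
    rw [h1]
    have h3 : ∀ i j, |u i * v j * (ip (w i) (w j) - ρ ^ 2 * (if i = j then 1 else 0))| ≤
        ‖u‖ * ‖v‖ * (6 * (ε * ρ ^ 2)) := by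
      intro i j
      rw [abs_mul, abs_mul]
      apply mul_le_mul _ (hww i j) (abs_nonneg _) (by positivity)
      exact mul_le_mul (abs_coord u i) (abs_coord v j) (abs_nonneg _) (norm_nonneg _)
    refine (Finset.abs_sum_le_sum_abs _ _).trans ?_
    refine (Finset.sum_le_sum (fun i _ => (Finset.abs_sum_le_sum_abs _ _).trans
      (Finset.sum_le_sum (fun j _ => h3 i j)))).trans ?_
    simp only [Finset.sum_const, Finset.card_univ, Fintype.card_fin, nsmul_eq_mul]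
    apply le_of_eq
    ring
  refine ⟨T, ?_, ?_⟩
  · intro a ha
    set c := a - x with hc
    set q := ι a - ι x with hqd
    have h1 : ι a - (ι x + T c) = q - T c := by rw [hqd]; abel
    rw [h1]
    refine (norm_le_nm _).trans ?_
    apply le_of_sq_le_sq _ (by positivity)
    rw [nm_sub_sq]
    have h0 : ‖x - x‖ ≤ R := by rw [sub_self, norm_zero]; exact hR.le
    have e1 := sq_err (k := 1) hε hε1 hR hρ (norm_nonneg _) (by rw [one_mul]; exact ha)
      (nm_nonneg _) (h a x ha h0)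
    have e2 : |ip q (T c) - ρ ^ 2 * ‖c‖ ^ 2| ≤ 6 * n * (ε * ρ ^ 2 * R ^ 2) := by
      have h2 : ip q (T c) - ρ ^ 2 * ‖c‖ ^ 2 = ∑ i, c i * (ip q (w i) - ρ ^ 2 * c i) := by
        rw [← real_inner_self_eq_norm_sq, inner_sum_coord, hTu, ip_sum_right, Finset.mul_sum,
          ← Finset.sum_sub_distrib]
        exact Finset.sum_congr rfl (fun i _ => by ring)
      rw [h2]
      refine (Finset.abs_sum_le_sum_abs _ _).trans ?_
      have h3 : ∀ i, |c i * (ip q (w i) - ρ ^ 2 * c i)| ≤ R * (6 * (ε * ρ ^ 2 * R)) := by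
        intro i
        rw [abs_mul]
        exact mul_le_mul ((abs_coord c i).trans ha) (hq a ha i) (abs_nonneg _) hR.le
      refine (Finset.sum_le_sum (fun i _ => h3 i)).trans ?_
      simp only [Finset.sum_const, Finset.card_univ, Fintype.card_fin, nsmul_eq_mul]
      apply le_of_eq
      ring
    have e3 := hTT c c
    rw [ip_self_eq, real_inner_self_eq_norm_sq] at e3
    have e4 : 6 * n ^ 2 * (ε * ρ ^ 2) * ‖c‖ * ‖c‖ ≤ 6 * n ^ 2 * (ε * ρ ^ 2 * R ^ 2) := by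
      have : ‖c‖ * ‖c‖ ≤ R ^ 2 := by nlinarith [norm_nonneg c]
      have h5 : (0 : ℝ) ≤ 6 * n ^ 2 * (ε * ρ ^ 2) := by positivity
      nlinarith [mul_le_mul_of_nonneg_left this h5]
    have e5 : nm q ^ 2 - 2 * ip q (T c) + nm (T c) ^ 2 ≤
        (3 + 12 * n + 6 * n ^ 2) * (ε * ρ ^ 2 * R ^ 2) := by
      rw [abs_le] at e1 e2 e3
      nlinarith [e1.2, e2.1, e3.2]
    refine e5.trans ?_
    have e6 : ((3 + 12 * (n : ℝ) + 6 * n ^ 2) * Real.sqrt ε * ρ * R) ^ 2 =
        (3 + 12 * (n : ℝ) + 6 * n ^ 2) ^ 2 * (ε * ρ ^ 2 * R ^ 2) := by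
      rw [mul_pow, mul_pow, mul_pow, Real.sq_sqrt hε.le]
      ring
    rw [e6]
    have e7 : (3 + 12 * (n : ℝ) + 6 * n ^ 2) ≤ (3 + 12 * (n : ℝ) + 6 * n ^ 2) ^ 2 := by
      have : (1 : ℝ) ≤ 3 + 12 * (n : ℝ) + 6 * n ^ 2 := by
        have : (0 : ℝ) ≤ 12 * (n : ℝ) + 6 * n ^ 2 := by positivity
        linarith
      nlinarith
    exact mul_le_mul_of_nonneg_right e7 (by positivity)
  · intro u v
    refine (hTT u v).trans ?_
    have h1 : (0 : ℝ) ≤ ε * ρ ^ 2 * ‖u‖ * ‖v‖ := by positivity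
    have h2 : (6 : ℝ) * n ^ 2 ≤ 3 + 12 * n + 6 * n ^ 2 := by
      have : (0 : ℝ) ≤ 3 + 12 * (n : ℝ) := by positivity
      linarith
    calc 6 * (n : ℝ) ^ 2 * (ε * ρ ^ 2) * ‖u‖ * ‖v‖ = 6 * n ^ 2 * (ε * ρ ^ 2 * ‖u‖ * ‖v‖) := by ring
      _ ≤ (3 + 12 * n + 6 * n ^ 2) * (ε * ρ ^ 2 * ‖u‖ * ‖v‖) :=
          mul_le_mul_of_nonneg_right h2 h1
      _ = (3 + 12 * n + 6 * n ^ 2) * ε * ρ ^ 2 * ‖u‖ * ‖v‖ := by ring

end Pool.Agent.Helper69.LK
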